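import Pool.Agent.Run7.h562.MM.Main2

/-!
The geometric genus of varieties dominated by products.
-/

set_option autoImplicit false
set_option linter.overlappingInstances false
set_option linter.unusedSectionVars false
set_option linter.unusedVariables false
set_option maxHeartbeats 4000000
set_option synthInstance.maxHeartbeats 400000

open Polynomial FF IntermediateField Module

namespace Run7.h562.UF

open Pool.Agent Pool.Agent.W603.LV Pool.Agent.W619.PQ Pool.Agent.N145.PC Pool.Agent.N145.PL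
  Pool.Agent.N145.SX Pool.Agent.Run7.h562.MM
open Pool.Agent.W602.GT (Divisorial RegAt IsPluri DerReg DerLog LogAt KodGe LogSec Psef)
open Pool.Agent.Y184.NT (trForm trForm_pluri)
open Pool.Agent.R882.LT (SecAt LogGenusZero)

open scoped Classical

section

variable {K : Type} [Field K] [Algebra ℂ K] {k : ℕ} {F : Fin (k + 1) → IntermediateField ℂ K}
  {m : Fin k → ℕ} {n : ℕ}

variable {L : Type} [Field L] [Algebra ℂ L]
  [Algebra L K] [IsScalarTower ℂ L K] [FiniteDimensional L K]

/-- **Several factors and one more factor of arbitrary dimension.** -/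
theorem core0 [Algebra.EssFiniteType ℂ K]
    [∀ i, Algebra.EssFiniteType ℂ (F i)] (hsup : ⨆ i, F i = ⊤)
    (hm : ∀ i : Fin k, Algebra.trdeg ℂ (F i.castSucc) = m i)
    (hn : Algebra.trdeg ℂ (F (Fin.last k)) = n) {N : ℕ} (e : Fin N ≃ (i : Fin k) × Fin (m i))
    (hK : Algebra.trdeg ℂ K = (N + n : ℕ)) {x : ∀ i : Fin k, Fin (m i) → F i.castSucc}
    (hx : ∀ i, IsTranscendenceBasis ℂ (x i)) {y : Fin n → F (Fin.last k)}
    (hy : IsTranscendenceBasis ℂ y)
    {g : Fin k → ℕ} (hsep : ∀ i, SepX (x i) (fun _ => False) (g i))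
    (hd : ∀ i : Fin k, finrank (MF F L (Js (k + 1) i)) (IntermediateField.adjoin
      (MF F L (Js (k + 1) i)) (F i.castSucc : Set K)) < g i) {yL : Fin (N + n) → L} {h : K}
    (hreg : ∀ g : K, (∀ Q : Place ℂ K, Divisorial (N + n) Q → RegAt Q
        (trForm (Fin.append (fun l : Fin N => (x (e l).1 (e l).2 : K)) (fun j => (y j : K))) g)) →
      ∀ P : Place ℂ L, Divisorial (N + n) P →
        RegAt P (trForm yL (Algebra.trace L K (h * g)))) :
    (∀ a ∈ HX y (fun _ => False),
      Algebra.trace (MF F L (Finset.univ.erase (Fin.last k))) K (h * (a : K)) = 0) ∨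
    ∃ t : L, t ≠ 0 ∧ ∀ P : Place ℂ L, Divisorial (N + n) P → RegAt P (trForm yL t) := by
  have hL : Algebra.trdeg ℂ L = (N + n : ℕ) := Pool.Agent.Y184.NT.trdeg_below (K := K) hK
  have hessL : Algebra.EssFiniteType ℂ L := Pool.Agent.TH466.QG.ess_below (K := K)
  have hz := basis_all hsup hK hx hy e
  have hind : AlgebraicIndependent ℂ fun p : (i : Fin k) × Fin (m i) => (x p.1 p.2 : K) := by
    have h7 := hz.1.comp (fun p : (i : Fin k) × Fin (m i) => Fin.castAdd n (e.symm p))
      ((Fin.castAdd_injective _ _).comp e.symm.injective)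
    have h8 : (Fin.append (fun l : Fin N => (x (e l).1 (e l).2 : K)) (fun j => (y j : K)) ∘
        fun p : (i : Fin k) × Fin (m i) => Fin.castAdd n (e.symm p)) =
        fun p => (x p.1 p.2 : K) := by
      funext p
      rw [Function.comp_apply, Fin.append_left, Equiv.apply_symm_apply]
    rwa [h8] at h7
  obtain ⟨E, hE⟩ : ∃ E, E = ⨆ i : Fin k, F i.castSucc := ⟨_, rfl⟩
  have hle : ∀ i : Fin k, F i.castSucc ≤ E := fun i => by
    rw [hE]
    exact le_iSup (fun i : Fin k => F i.castSucc) i
  have hessE : Algebra.EssFiniteType ℂ E := ess_iSup (F := fun i : Fin k => F i.castSucc) hE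
  have hzE := basis_zS x hle e hx hind hE
  have htrE := trdeg_basis hzE
  obtain ⟨τ0⟩ : Nonempty (K →ₐ[L] AlgebraicClosure L) :=
    ⟨IsAlgClosed.lift (R := L) (M := AlgebraicClosure L) (S := K)⟩
  have hT' : IsScalarTower ℂ L (AlgebraicClosure L) := inferInstance
  obtain ⟨H, hH⟩ : ∃ H, H = HS x (fun _ _ => False) (HX y (fun _ => False) :
    Set (F (Fin.last k))) := ⟨_, rfl⟩
  have hHl : H (Fin.last k) = HX y (fun _ => False) := by
    rw [hH]
    exact HS_last x _ _
  have hHc : ∀ i : Fin k, H i.castSucc = HX (x i) (fun _ => False) := fun i => by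
    rw [hH]
    exact HS_cast x _ _ i
  let I := {f : ∀ i, F i // ∀ i, f i ∈ H i}
  obtain ⟨T, hT⟩ : ∃ T : I → L, ∀ f, T f =
    Algebra.trace L K (h * ∏ i, algebraMap (F i) K (f.1 i)) := ⟨_, fun _ => rfl⟩
  have hTreg : ∀ f, ∀ P : Place ℂ L, Divisorial (N + n) P → RegAt P (trForm yL (T f)) := by
    intro f P hP
    obtain ⟨q, hq1, hq2⟩ := prods sec2 k (fun i => F i.castSucc) m hm x hx hind
      (fun _ _ => False) E hE hle N e (fun i => f.1 i.castSucc) (fun i => by
        have := f.2 i.castSucc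
        rwa [hHc] at this)
    have hq3 : q ∈ HX (zS x hle e) (fun _ => False) := by
      refine hx_mono ?_ hq2
      rintro Q ⟨_, _, _, h3, -⟩
      exact h3
    have h1 := sec2 K E (F (Fin.last k)) N n htrE hn hK (zS x hle e) hzE y hy (fun _ => False)
      (fun _ => False) q hq3 (f.1 (Fin.last k)) (by
        have := f.2 (Fin.last k)
        rwa [hHl] at this)
    have h2 : algebraMap E K q * algebraMap (F (Fin.last k)) K (f.1 (Fin.last k)) =
        ∏ i, algebraMap (F i) K (f.1 i) := by
      rw [Fin.prod_univ_castSucc]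
      congr 1
    rw [h2] at h1
    rw [hT]
    refine hreg _ (fun Q hQ => ?_) P hP
    refine (h1 Q hQ).2 ?_
    rintro (⟨_, _, h3, -⟩ | ⟨_, _, h3, -⟩)
    · exact h3
    · exact h3
  obtain ⟨gg, hgg⟩ : ∃ gg : Fin (k + 1) → ℕ, gg = Fin.lastCases (motive := fun _ => ℕ) 0 g :=
    ⟨_, rfl⟩
  have hggl : gg (Fin.last k) = 0 := by
    rw [hgg]
    exact Fin.lastCases_last
  have hggc : ∀ i : Fin k, gg i.castSucc = g i := fun i => by
    rw [hgg]
    exact Fin.lastCases_castSucc i
  have hS : ∀ (Ω : Type) [Field Ω] [Algebra ℂ Ω] [IsAlgClosed Ω] (i : Fin (k + 1)),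
      Sep (ev Ω F i) (H i) (gg i) := by
    intro Ω _ _ _ i
    induction i using Fin.lastCases with
    | last =>
      intro A hA
      rw [hggl] at hA
      exact absurd hA (Nat.not_lt_zero _)
    | cast i =>
      intro A hA c hc
      rw [hggc] at hA
      rw [hHc] at hc
      exact hsep i Ω A hA c hc
  by_cases hT0 : ∃ f, T f ≠ 0
  swap
  · left
    push Not at hT0
    have h0 := Ch.rel_zero (F := F) (H := H) (h := h) (fun f hf => by
      have := hT0 ⟨f, hf⟩
      rwa [hT] at this) τ0
    have h1 := Rl.chain h0 (hS (AlgebraicClosure L)) (s := k) (fun l hl => by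
      obtain ⟨i, rfl⟩ : ∃ i : Fin k, i.castSucc = l := ⟨⟨l.val, hl⟩, rfl⟩
      rw [hggc]
      exact lt_of_le_of_lt (Ch.count_le τ0 _ _) (hd i))
    rw [erase_last] at h1
    intro a ha
    have h2 := Ch.rel_erase h1 (Fin.lastCases (motive := fun i => F i) a (fun _ => 1)) (by
      rw [Fin.lastCases_last, hHl]
      exact ha)
    rw [Fin.prod_univ_castSucc, Fin.lastCases_last] at h2
    simp only [Fin.lastCases_castSucc, map_one, Finset.prod_const_one, one_mul] at h2
    exact h2
  · obtain ⟨f1, hf1⟩ := hT0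
    exact Or.inr ⟨T f1, hf1, hTreg f1⟩

end

section

variable {K : Type} [Field K] [Algebra ℂ K] {k : ℕ} {F : Fin (k + 1) → IntermediateField ℂ K}
  {m : Fin k → ℕ} {n : ℕ}

variable {L : Type} [Field L] [Algebra ℂ L]
  [Algebra L K] [IsScalarTower ℂ L K] [FiniteDimensional L K]

/-- **Canonical forms of the fibres give canonical forms of the variety.** -/
theorem pg_from [Algebra.EssFiniteType ℂ K]
    [∀ i, Algebra.EssFiniteType ℂ (F i)] (hsup : ⨆ i, F i = ⊤)
    (hm : ∀ i : Fin k, Algebra.trdeg ℂ (F i.castSucc) = m i)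
    (hn : Algebra.trdeg ℂ (F (Fin.last k)) = n) {N : ℕ} (e : Fin N ≃ (i : Fin k) × Fin (m i))
    (hK : Algebra.trdeg ℂ K = (N + n : ℕ)) {x : ∀ i : Fin k, Fin (m i) → F i.castSucc}
    (hx : ∀ i, IsTranscendenceBasis ℂ (x i)) {y : Fin n → F (Fin.last k)}
    (hy : IsTranscendenceBasis ℂ y)
    {g : Fin k → ℕ} (hsep : ∀ i, SepX (x i) (fun _ => False) (g i))
    (hd : ∀ i : Fin k, finrank (MF F L (Js (k + 1) i)) (IntermediateField.adjoin
      (MF F L (Js (k + 1) i)) (F i.castSucc : Set K)) < g i)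
    (hf : FibGe (MF F L (Finset.univ.erase (Fin.last k))) (⨆ i : Fin k, F i.castSucc) (N + n) 0) :
    CanGe L (N + n) 0 := by
  have hz := basis_all hsup hK hx hy e
  have hL : Algebra.trdeg ℂ L = (N + n : ℕ) := Pool.Agent.Y184.NT.trdeg_below (K := K) hK
  have hessL : Algebra.EssFiniteType ℂ L := Pool.Agent.TH466.QG.ess_below (K := K)
  obtain ⟨yL, G, h, G', hyL, hG, hG', hGz, hh, hreg, hpull, hval⟩ := exists_tr (L := L) hK hz
  have hcore := core0 (L := L) hsup hm hn e hK hx hy hsep hd hreg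
  have hcK : CharZero K := charZero_of_injective_algebraMap (algebraMap ℂ K).injective
  obtain ⟨E, hE⟩ : ∃ E, E = ⨆ i : Fin k, F i.castSucc := ⟨_, rfl⟩
  have hME := MF_erase (L := L) hE
  rw [← hE] at hf
  obtain ⟨M, hM⟩ : ∃ M, M = MF F L (Finset.univ.erase (Fin.last k)) := ⟨_, rfl⟩
  rw [← hM] at hf hcore hME
  have hEM : ∀ v ∈ E, v ∈ M := fun v hv => by
    rw [hME]
    exact IntermediateField.subset_adjoin _ _ hv
  have hle : ∀ i : Fin k, F i.castSucc ≤ E := fun i => by
    rw [hE]
    exact le_iSup (fun i : Fin k => F i.castSucc) i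
  have hessE : Algebra.EssFiniteType ℂ E := ess_iSup (F := fun i : Fin k => F i.castSucc) hE
  have hind : AlgebraicIndependent ℂ fun p : (i : Fin k) × Fin (m i) => (x p.1 p.2 : K) := by
    have h7 := hz.1.comp (fun p : (i : Fin k) × Fin (m i) => Fin.castAdd n (e.symm p))
      ((Fin.castAdd_injective _ _).comp e.symm.injective)
    have h8 : (Fin.append (fun l : Fin N => (x (e l).1 (e l).2 : K)) (fun j => (y j : K)) ∘
        fun p : (i : Fin k) × Fin (m i) => Fin.castAdd n (e.symm p)) =
        fun p => (x p.1 p.2 : K) := by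
      funext p
      rw [Function.comp_apply, Fin.append_left, Equiv.apply_symm_apply]
    rwa [h8] at h7
  have hzE : IsTranscendenceBasis ℂ (zS x hle e) := basis_zS x hle e hx hind hE
  have hsup' : E ⊔ F (Fin.last k) = ⊤ := by
    rw [eq_top_iff, ← hsup]
    refine iSup_le fun i => ?_
    induction i using Fin.lastCases with
    | last => exact le_sup_right
    | cast i => exact (hle i).trans le_sup_left
  have hTow : IsScalarTower ℂ M K := IsScalarTower.of_algebraMap_eq fun c => rfl
  have hMtr : Algebra.trdeg ℂ M = (N + n : ℕ) := Pool.Agent.Y184.NT.trdeg_below (K := K) hK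
  obtain ⟨yM, GM, hMM, GM', hyM, hGM, hGM', hGMz, hhM, -, hpullM, -⟩ :=
    exists_tr (L := M) hK hz
  obtain ⟨c, hc⟩ := hval M GM GM' hGM'
  have hc' : ∀ g, hMM * g = (c : K) * (h * g) := fun g => by
    rw [← hGMz, hc]
    rfl
  have hc0 : c ≠ 0 := by
    rintro rfl
    have h1 := hc' 1
    rw [mul_one] at h1
    apply hhM
    rw [h1]
    exact zero_mul _
  obtain ⟨ω, hω, D, hD0, hDi⟩ := hf
  obtain ⟨t, ht⟩ : ∃ t : Fin (0 + 1) → M, ∀ j, t j = ω j GM := ⟨_, fun _ => rfl⟩
  have hcoord : ∀ j, trForm yM (t j) = ω j := fun j => by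
    rw [ht]
    exact form_coord hyM hGM (hω j).1
  have hrat : ∀ j, ω j D = (Matrix.of fun i j => D i (yM j)).det ^ 1 * t j := fun j => by
    rw [ht]
    exact Pool.Agent.Y172.pluri_coord hyM hGM (hω j).1 D
  have hdet : (Matrix.of fun i j => D i (yM j) : Matrix (Fin (N + n)) (Fin (N + n)) M).det ≠ 0 := by
    intro h0
    rw [hrat, h0, pow_one, zero_mul] at hD0
    exact hD0 rfl
  have ht0 : t 0 ≠ 0 := by
    intro h0
    rw [hrat, h0, mul_zero] at hD0
    exact hD0 rfl
  -- the pull-backs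
  have hk : ∀ j, (t j : K) / hMM ∈ Submodule.span E ((fun a : F (Fin.last k) => (a : K)) ''
      HX y (fun _ => False)) := by
    intro j
    refine kun (x := zS x hle e) hsup' hzE hy hn hK hz fun Q hQ hQE => ?_
    refine hpullM (t j) Q hQ fun P a hP => ?_
    rw [hcoord]
    refine (hω j).2 P (Pool.Agent.Y71.NT.t_abh M K (N + n) (N + n) hMtr hK Q P a hP hQ)
      fun f hf => ?_
    have h1 := hQE ⟨(f : K), hf⟩
    have h2 : Q.ord (algebraMap M K f) = a * P.ord f := hP.2 f
    have h3 : Q.ord (algebraMap M K f) = 0 := h1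
    rw [h3] at h2
    have h4 : (a : ℤ) ≠ 0 := by
      have := hP.1
      omega
    exact (mul_eq_zero.1 h2.symm).resolve_left h4
  -- the traces
  obtain ⟨τ, hτ⟩ : ∃ τ : K → K, ∀ z, τ z = ((Algebra.trace M K (hMM * z) : M) : K) :=
    ⟨_, fun _ => rfl⟩
  obtain ⟨Sτ, hSτ⟩ : ∃ Sτ : Set K, Sτ = (fun a : F (Fin.last k) => τ (a : K)) ''
    HX y (fun _ => False) := ⟨_, rfl⟩
  have hspan : ∀ w ∈ Submodule.span E ((fun a : F (Fin.last k) => (a : K)) ''
      HX y (fun _ => False)), τ w ∈ Submodule.span E Sτ := by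
    intro w hw
    induction hw using Submodule.span_induction with
    | mem w hw =>
      obtain ⟨a, ha, rfl⟩ := hw
      apply Submodule.subset_span
      rw [hSτ]
      exact ⟨a, ha, rfl⟩
    | zero =>
      rw [hτ, mul_zero, map_zero]
      exact Submodule.zero_mem _
    | add u v _ _ hu hv =>
      have h1 : τ (u + v) = τ u + τ v := by
        rw [hτ, hτ, hτ, mul_add, map_add]
        rfl
      rw [h1]
      exact Submodule.add_mem _ hu hv
    | smul a w _ hw =>
      have h1 : τ (a • w) = a • τ w := by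
        rw [hτ, hτ]
        have h2 : hMM * (a • w) = (⟨(a : K), hEM _ a.2⟩ : M) • (hMM * w) := by
          rw [Algebra.smul_def, Algebra.smul_def]
          change hMM * ((a : K) * w) = (a : K) * (hMM * w)
          ring
        rw [h2, map_smul, smul_eq_mul, Algebra.smul_def]
        rfl
      rw [h1]
      exact Submodule.smul_mem _ _ hw
  have htτ : ∀ j, (t j : K) ∈ Submodule.span E Sτ := by
    intro j
    have h1 := hspan _ (hk j)
    have h2 : τ ((t j : K) / hMM) = (finrank M K : K) * (t j : K) := by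
      rw [hτ, mul_div_cancel₀ _ hhM]
      have h3 : (t j : K) = algebraMap M K (t j) := rfl
      rw [h3, Algebra.trace_algebraMap]
      change ((finrank M K • t j : M) : K) = _
      rw [nsmul_eq_mul]
      push_cast
      rfl
    rw [h2] at h1
    have h4 : (t j : K) = ((finrank M K : E)⁻¹ : E) • ((finrank M K : K) * (t j : K)) := by
      have h5 : (finrank M K : K) ≠ 0 := by
        rw [Nat.cast_ne_zero]
        exact finrank_pos.ne'
      rw [Algebra.smul_def]
      have h6 : algebraMap E K ((finrank M K : E)⁻¹) = (finrank M K : K)⁻¹ := by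
        rw [map_inv₀, map_natCast]
      rw [h6, ← mul_assoc, inv_mul_cancel₀ h5, one_mul]
    rw [h4]
    exact Submodule.smul_mem _ _ h1
  have hτh : ∀ a : K, τ a = (c : K) * ((Algebra.trace M K (h * a) : M) : K) := by
    intro a
    rw [hτ, hc']
    have h1 : (c : K) * (h * a) = c • (h * a) := rfl
    rw [h1, map_smul, smul_eq_mul]
    rfl
  -- some trace is not zero
  have hne : ∃ a ∈ HX y (fun _ => False), Algebra.trace M K (h * (a : K)) ≠ 0 := by
    by_contra hcon
    push Not at hcon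
    have h1 : Submodule.span E Sτ = ⊥ := by
      rw [Submodule.span_eq_bot, hSτ]
      rintro _ ⟨a, ha, rfl⟩
      change τ (a : K) = 0
      rw [hτh, hcon a ha]
      exact mul_zero _
    have h2 := htτ 0
    rw [h1, Submodule.mem_bot] at h2
    exact ht0 (Subtype.ext h2)
  obtain ⟨a0, ha0, ha0'⟩ := hne
  rcases hcore with h1 | ⟨t1, ht1, ht1r⟩
  · exact absurd (h1 a0 ha0) ha0'
  have hv : trForm yL t1 G = t1 := by
    have h1 : (Matrix.of fun i j => G i (yL j) :
        Matrix (Fin (N + n)) (Fin (N + n)) L) = 1 := by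
      ext i j
      rw [Matrix.of_apply, hG, Matrix.one_apply]
    rw [trForm, h1, Matrix.det_one, one_mul]
  refine ⟨fun _ => trForm yL t1, fun j => ⟨trForm_pluri _ _, ht1r⟩, G, ?_, ?_⟩
  · change trForm yL t1 G ≠ 0
    rw [hv]
    exact ht1
  · exact (algebraicIndependent_empty_type_iff (x := fun i : Fin 0 =>
      trForm yL t1 G / trForm yL t1 G)).2 (algebraMap ℂ L).injective

end

end Run7.h562.UF
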