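import Pool.Agent.Run7.h562.UF.Lift
import Pool.Agent.Run7.h562.UF.Pg
import Pool.Agent.N145.PL.Dich2

/-!
Coverings by unirational varieties and uniruledness.
-/

set_option autoImplicit false
set_option linter.overlappingInstances false
set_option linter.unusedSectionVars false
set_option linter.unusedVariables false
set_option maxHeartbeats 4000000
set_option synthInstance.maxHeartbeats 400000

open FF IntermediateField Module

namespace Run7.h562.UF

open Pool.Agent Pool.Agent.W603.LV Pool.Agent.W619.PQ Pool.Agent.N145.PC Pool.Agent.N145.PL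
  Pool.Agent.N145.SX
open Pool.Agent.W602.GT (Divisorial RegAt IsPluri DerReg DerLog LogAt KodGe LogSec Psef)
open Pool.Agent.R882.LT (LogGenusZero)

/-- rational functions in one variable -/
theorem ratFunc_equiv (M : Type) [Field M] [Algebra ℂ M] :
    Nonempty (RatFunc M ≃ₐ[ℂ] FractionRing (MvPolynomial (Fin 1) M)) :=
  ⟨(IsFractionRing.algEquivOfAlgEquiv (R := M) (A := Polynomial M)
    (B := MvPolynomial (Fin 1) M)
    (MvPolynomial.uniqueAlgEquiv M (Fin 1)).symm).restrictScalars ℂ⟩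

/-- `A¹`-uniruledness without a boundary -/
theorem a1_iff {L : Type} [Field L] [Algebra ℂ L] {N : ℕ} :
    Pool.Agent.W619.PL.IsA1Uniruled ℂ L N (fun _ => False) ↔ IsUniruled ℂ L N := by
  constructor
  · rintro ⟨M, iF, iA, φ, h1, h2, -⟩
    exact ⟨M, iF, iA, h1, h2, ⟨φ⟩⟩
  · rintro ⟨M, iF, iA, h1, h2, ⟨φ⟩⟩
    exact ⟨M, iF, iA, φ, h1, h2, fun _ _ _ _ _ _ h => h⟩

section

variable {K : Type} [Field K] [Algebra ℂ K] {k : ℕ} {F : Fin (k + 1) → IntermediateField ℂ K}
  {L : Type} [Field L] [Algebra ℂ L] [Algebra L K] [IsScalarTower ℂ L K] [FiniteDimensional L K]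

/-- the coverings of the variety and of the generic fibre -/
theorem cov_lift [∀ i, Algebra.EssFiniteType ℂ (F i)] {m : Fin k → ℕ}
    (hm : ∀ i : Fin k, Algebra.trdeg ℂ (F i.castSucc) = m i)
    {x : ∀ i : Fin k, Fin (m i) → F i.castSucc} (hx : ∀ i, IsTranscendenceBasis ℂ (x i))
    {g : Fin k → ℕ} (hsep : ∀ i, SepX (x i) (fun _ => False) (g i))
    (hd : ∀ i : Fin k, finrank (Im F L i)
      (IntermediateField.adjoin (Im F L i) (F i.castSucc : Set K)) < g i) {N r : ℕ}
    (h : ∃ (M : Type) (_ : Field M) (_ : Algebra ℂ M), Algebra.EssFiniteType ℂ M ∧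
      Algebra.trdeg ℂ M + r = N ∧ Nonempty (L →ₐ[ℂ] FractionRing (MvPolynomial (Fin r) M))) :
    ∃ (M : Type) (_ : Field M) (_ : Algebra ℂ M), Algebra.EssFiniteType ℂ M ∧
      Algebra.trdeg ℂ M + r = N ∧ ∃ ψ : Im F L k →ₐ[ℂ] FractionRing (MvPolynomial (Fin r) M),
        ∀ f : Im F L k, (f : K) ∈ (⨆ i : Fin k, F i.castSucc) → ∃ c : M,
          ψ f = algebraMap M (FractionRing (MvPolynomial (Fin r) M)) c := by
  obtain ⟨M, iF, iA, hess, htr, ⟨ι⟩⟩ := h
  obtain ⟨N', hN'⟩ : ∃ N' : ℕ, Algebra.trdeg ℂ M = N' := by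
    have h1 : Algebra.trdeg ℂ M ≤ N := by
      rw [← htr]
      exact self_le_add_right _ _
    obtain ⟨N', hN'⟩ := Cardinal.lt_aleph0.1 (lt_of_le_of_lt h1 (Cardinal.natCast_lt_aleph0 (n := N)))
    exact ⟨N', hN'⟩
  obtain ⟨M', jF, jA, hess', htr', ψ, hψ⟩ := lift_cov hm hx hsep hd hN' ι
  refine ⟨M', jF, jA, hess', ?_, ψ, hψ⟩
  rw [htr', ← hN']
  exact htr

/-- the dimension of the members of the covering family -/
theorem cov_dim {N n : ℕ} (hE : Algebra.trdeg ℂ ↥(⨆ i : Fin k, F i.castSucc) = N) {r : ℕ}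
    (h : ∃ (M : Type) (_ : Field M) (_ : Algebra ℂ M), Algebra.EssFiniteType ℂ M ∧
      Algebra.trdeg ℂ M + r = (N + n : ℕ) ∧
      ∃ ψ : Im F L k →ₐ[ℂ] FractionRing (MvPolynomial (Fin r) M),
        ∀ f : Im F L k, (f : K) ∈ (⨆ i : Fin k, F i.castSucc) → ∃ c : M,
          ψ f = algebraMap M (FractionRing (MvPolynomial (Fin r) M)) c) : r ≤ n := by
  obtain ⟨M, iF, iA, hess, htr, ψ, hψ⟩ := h
  obtain ⟨E, hEd⟩ : ∃ E, E = ⨆ i : Fin k, F i.castSucc := ⟨_, rfl⟩
  rw [← hEd] at hE hψ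
  have hEI : ∀ z : E, (z : K) ∈ Im F L k := by
    have h1 : E ≤ (Im F L k).restrictScalars ℂ := by
      rw [hEd]
      refine iSup_le fun i z hz => ?_
      rw [IntermediateField.mem_restrictScalars]
      unfold Im
      apply IntermediateField.subset_adjoin
      exact ⟨i.castSucc, i.2, hz⟩
    exact fun z => h1 z.2
  choose c hc using fun z : E => hψ ⟨(z : K), hEI z⟩ z.2
  have hinj := (algebraMap M (FractionRing (MvPolynomial (Fin r) M))).injective
  let φ : E →ₐ[ℂ] M :=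
    { toFun := c
      map_one' := hinj (by
        have h3 : (⟨((1 : E) : K), hEI _⟩ : Im F L k) = 1 := Subtype.ext rfl
        rw [← hc, h3, map_one, map_one])
      map_mul' := fun a b => hinj (by
        rw [← hc, map_mul, ← hc, ← hc, ← map_mul]
        congr 1)
      map_zero' := hinj (by
        have h3 : (⟨((0 : E) : K), hEI _⟩ : Im F L k) = 0 := Subtype.ext rfl
        rw [← hc, h3, map_zero, map_zero])
      map_add' := fun a b => hinj (by
        rw [← hc, map_add, ← hc, ← hc, ← map_add]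
        congr 1)
      commutes' := fun a => hinj (by
        have h3 : (⟨((algebraMap ℂ E a : E) : K), hEI _⟩ : Im F L k) = algebraMap ℂ (Im F L k) a :=
          Subtype.ext rfl
        rw [← hc, h3, AlgHom.commutes]
        exact IsScalarTower.algebraMap_apply ℂ M (FractionRing (MvPolynomial (Fin r) M)) a) }
  have h1 : Algebra.trdeg ℂ E ≤ Algebra.trdeg ℂ M := trdeg_le_of_injective φ φ.injective
  rw [hE] at h1
  obtain ⟨N', hN'⟩ : ∃ N' : ℕ, Algebra.trdeg ℂ M = N' := by
    have h1 : Algebra.trdeg ℂ M ≤ (N + n : ℕ) := by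
      rw [← htr]
      exact self_le_add_right _ _
    obtain ⟨N', hN'⟩ := Cardinal.lt_aleph0.1
      (lt_of_le_of_lt h1 (Cardinal.natCast_lt_aleph0 (n := N + n)))
    exact ⟨N', hN'⟩
  rw [hN'] at h1 htr
  have h2 : N ≤ N' := by exact_mod_cast h1
  have h3 : N' + r = N + n := by exact_mod_cast htr
  omega

end

end Run7.h562.UF
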