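import Pool.Agent.N145.SX.All
import Pool.Agent.N145.SX.Stm2

/-!
Multivalued maps of small degree from unirational varieties to varieties whose canonical forms
separate points are constant.
-/

set_option autoImplicit false
set_option linter.overlappingInstances false
set_option linter.unusedSectionVars false
set_option linter.unusedVariables false
set_option maxHeartbeats 4000000
set_option synthInstance.maxHeartbeats 400000

open FF IntermediateField Module

namespace Run7.h562.UF

open Pool.Agent.N145.SX Pool.Agent.N145.PC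

/-- the intersection of the closures of the subsets of an independent set -/
theorem alg_inter {Λ Ω : Type} [Field Λ] [Field Ω] [Algebra Λ Ω] {r : ℕ} {s : Fin r → Ω}
    (hs : AlgebraicIndependent Λ s) {w : Ω} (hr : 0 < r)
    (hw : ∀ i, IsAlgebraic (IntermediateField.adjoin Λ (s '' {i}ᶜ)) w) : IsAlgebraic Λ w := by
  have hne : Nonempty (Fin r) := ⟨⟨0, hr⟩⟩
  obtain ⟨Mt, hMt⟩ : ∃ Mt, Mt = AlgebraicIndependent.matroid Λ Ω := ⟨_, rfl⟩
  have hcl : ∀ (T : Set Ω), (w ∈ Mt.closure T ↔
      IsAlgebraic (IntermediateField.adjoin Λ T) w) := by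
    intro T
    rw [hMt, AlgebraicIndependent.matroid_closure_eq]
    rw [IntermediateField.isAlgebraic_adjoin_iff]
    exact Iff.rfl
  have hind0 : Mt.Indep (Set.range s) := by
    rw [hMt, AlgebraicIndependent.matroid_indep_iff]
    exact hs.to_subtype_range
  have hind : Mt.Indep (⋃ i : Fin r, s '' {i}ᶜ) :=
    hind0.subset (Set.iUnion_subset fun i => Set.image_subset_range _ _)
  have h1 := Matroid.closure_iInter_eq_iInter_closure_of_iUnion_indep
    (fun i : Fin r => s '' ({i}ᶜ : Set (Fin r))) hind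
  have h2 : w ∈ ⋂ i : Fin r, Mt.closure (s '' ({i}ᶜ : Set (Fin r))) :=
    Set.mem_iInter.2 fun i => (hcl _).2 (hw i)
  rw [← h1] at h2
  have h3 : (⋂ i : Fin r, s '' ({i}ᶜ : Set (Fin r))) = ∅ := by
    rw [Set.eq_empty_iff_forall_notMem]
    intro y hy
    obtain ⟨j, -, hj⟩ := Set.mem_iInter.1 hy ⟨0, hr⟩
    obtain ⟨j', hj', hj2⟩ := Set.mem_iInter.1 hy j
    exact hj' (hs.injective (hj2.trans hj.symm))
  rw [h3, hcl, IntermediateField.adjoin_empty] at h2
  have h4 : Algebra.IsAlgebraic Λ (⊥ : IntermediateField Λ Ω) := inferInstance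
  exact h2.restrictScalars Λ

/-- **Multivalued maps of small degree from unirational varieties are constant.** -/
theorem cstr {E : Type} [Field E] [Algebra ℂ E] [Algebra.EssFiniteType ℂ E] {m : ℕ}
    (hE : Algebra.trdeg ℂ E = m) {x : Fin m → E} (hx : IsTranscendenceBasis ℂ x) {g : ℕ}
    (hsep : SepX x (fun _ => False) g) {Λ Ω : Type} [Field Λ] [Field Ω] [Algebra ℂ Λ] [Algebra ℂ Ω]
    [Algebra Λ Ω] [IsScalarTower ℂ Λ Ω] [IsAlgClosed Ω] {r : ℕ}
    (hN : Algebra.trdeg ℂ Ω < Cardinal.aleph0) {s : Fin r → Ω} (hs : AlgebraicIndependent Λ s)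
    (φ : E →ₐ[ℂ] Ω)
    (hfin : FiniteDimensional (IntermediateField.adjoin Λ (Set.range s))
      (IntermediateField.adjoin (IntermediateField.adjoin Λ (Set.range s)) (Set.range φ)))
    (hg : finrank (IntermediateField.adjoin Λ (Set.range s))
      (IntermediateField.adjoin (IntermediateField.adjoin Λ (Set.range s)) (Set.range φ)) < g)
    (z : E) : IsAlgebraic Λ (φ z) := by
  obtain ⟨B, hB⟩ : ∃ B, B = IntermediateField.adjoin Λ (Set.range s) := ⟨_, rfl⟩
  rw [← hB] at hfin hg
  have hφz : IsAlgebraic B (φ z) := by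
    have h1 : IsAlgebraic B (⟨φ z, IntermediateField.subset_adjoin _ _ ⟨z, rfl⟩⟩ :
        IntermediateField.adjoin B (Set.range φ)) := Algebra.IsAlgebraic.isAlgebraic _
    exact (isAlgebraic_algebraMap_iff (R := B)
      (algebraMap (IntermediateField.adjoin B (Set.range φ)) Ω).injective).2 h1
  rcases Nat.eq_zero_or_pos r with hr | hr
  · subst hr
    have h2 : Set.range s = ∅ := Set.range_eq_empty s
    rw [hB, h2, IntermediateField.adjoin_empty] at hφz
    have h4 : Algebra.IsAlgebraic Λ (⊥ : IntermediateField Λ Ω) := inferInstance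
    exact hφz.restrictScalars Λ
  refine alg_inter hs hr fun i => ?_
  obtain ⟨C, hC⟩ : ∃ C, C = IntermediateField.adjoin Λ (s '' ({i}ᶜ : Set (Fin r))) := ⟨_, rfl⟩
  rw [← hC]
  -- the constants of the line
  let Λ1 := algebraicClosure C Ω
  have hΛ1 : IsAlgClosed Λ1 := (algebraicClosure.isAlgClosure C Ω).isAlgClosed
  have hTC : IsScalarTower ℂ C Ω := IsScalarTower.of_algebraMap_eq fun c => rfl
  have hT1 : IsScalarTower ℂ Λ1 Ω := IsScalarTower.of_algebraMap_eq fun c => rfl
  -- its transcendence degree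
  obtain ⟨N', hN'⟩ : ∃ N' : ℕ, Algebra.trdeg ℂ Λ1 = N' := by
    have h1 : Algebra.trdeg ℂ Λ1 ≤ Algebra.trdeg ℂ Ω :=
      trdeg_le_of_injective (IsScalarTower.toAlgHom ℂ Λ1 Ω) (algebraMap Λ1 Ω).injective
    obtain ⟨N', hN'⟩ := Cardinal.lt_aleph0.1 (lt_of_le_of_lt h1 hN)
    exact ⟨N', hN'⟩
  -- the coordinate of the line
  have hsi : Transcendental Λ1 (s i) := by
    have h1 : Transcendental C (s i) := by
      rw [hC, IntermediateField.transcendental_adjoin_iff]
      exact hs.transcendental_adjoin (by simp)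
    intro h
    exact h1 (h.restrictScalars C)
  -- the degree
  have hBle : ∀ b : B, algebraMap B Ω b ∈ Λ1⟮s i⟯ := by
    intro b
    let T : IntermediateField Λ Ω :=
      { carrier := {y | y ∈ Λ1⟮s i⟯}
        mul_mem' := fun {a b} ha hb => Λ1⟮s i⟯.mul_mem ha hb
        add_mem' := fun {a b} ha hb => Λ1⟮s i⟯.add_mem ha hb
        algebraMap_mem' := fun c => by
          have h1 : algebraMap Λ Ω c ∈ Λ1 := by
            rw [mem_algebraicClosure_iff]
            exact isAlgebraic_algebraMap (algebraMap Λ C c)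
          exact Λ1⟮s i⟯.algebraMap_mem ⟨_, h1⟩
        inv_mem' := fun a ha => Λ1⟮s i⟯.inv_mem ha }
    have h1 : B ≤ T := by
      rw [hB, IntermediateField.adjoin_le_iff]
      rintro _ ⟨j, rfl⟩
      change s j ∈ Λ1⟮s i⟯
      by_cases hj : j = i
      · rw [hj]
        exact mem_adjoin_simple_self _ _
      · have h2 : s j ∈ C := by
          rw [hC]
          exact IntermediateField.subset_adjoin _ _ ⟨j, hj, rfl⟩
        have h3 : s j ∈ Λ1 := by
          rw [mem_algebraicClosure_iff]
          exact isAlgebraic_algebraMap (⟨s j, h2⟩ : C)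
        exact Λ1⟮s i⟯.algebraMap_mem ⟨_, h3⟩
    exact h1 b.2
  obtain ⟨hf1, hf2⟩ := adj_le (A0 := B) (A := IntermediateField.adjoin B (Set.range φ))
    (R := Λ1⟮s i⟯) (algebraMap (IntermediateField.adjoin B (Set.range φ)) Ω)
    (fun a => ⟨⟨_, hBle a⟩, rfl⟩)
  have hle : IntermediateField.adjoin Λ1⟮s i⟯ (Set.range φ) ≤
      IntermediateField.adjoin Λ1⟮s i⟯
        (Set.range (algebraMap (IntermediateField.adjoin B (Set.range φ)) Ω)) := by
    apply IntermediateField.adjoin.mono
    rintro _ ⟨w, rfl⟩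
    exact ⟨⟨φ w, IntermediateField.subset_adjoin _ _ ⟨w, rfl⟩⟩, rfl⟩
  have hfin1 : FiniteDimensional Λ1⟮s i⟯ (IntermediateField.adjoin Λ1⟮s i⟯ (Set.range φ)) :=
    FiniteDimensional.of_injective (IntermediateField.inclusion hle).toLinearMap
      (IntermediateField.inclusion hle).injective
  have hfr := IntermediateField.finrank_le_of_le_right hle
  have h1 := cst E Λ1 Ω m N' hE hN' x hx g hsep (s i) hsi φ hfin1 (by omega) z
  exact h1.restrictScalars C

end Run7.h562.UF
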