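import Pool.Agent.Run7.h562.UF.Cst
import Pool.Agent.N297.SX.Uni

/-!
Coverings by unirational varieties lift to multivalued maps to varieties whose canonical forms
separate points.
-/

set_option autoImplicit false
set_option linter.overlappingInstances false
set_option linter.unusedSectionVars false
set_option linter.unusedVariables false
set_option maxHeartbeats 4000000
set_option synthInstance.maxHeartbeats 400000

open FF IntermediateField Module

namespace Run7.h562.UF

open Pool.Agent.N145.SX Pool.Agent.N145.PC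

variable {K : Type} [Field K] [Algebra ℂ K] {k : ℕ}

/-- The function field of the image `W_i` of `V` in the product of `W` and the first `i` factors.
Here `K` and `L` are the function fields of `V` and `W`, and `F l` is the one of the `l`-th
factor. -/
noncomputable def Im (F : Fin (k + 1) → IntermediateField ℂ K) (L : Type) [Field L] [Algebra L K]
    (i : ℕ) : IntermediateField L K :=
  IntermediateField.adjoin L {z | ∃ l : Fin (k + 1), l.val < i ∧ z ∈ F l}

variable {F : Fin (k + 1) → IntermediateField ℂ K} {L Ω : Type} [Field L] [Field Ω] [Algebra ℂ L]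
  [Algebra ℂ Ω] [Algebra L K] [IsScalarTower ℂ L K] [Algebra L Ω] [IsScalarTower ℂ L Ω]
  [FiniteDimensional L K] [IsAlgClosed Ω]

/-- the coordinates in all the factors are constant on the members of the covering family -/
theorem const_all [∀ i, Algebra.EssFiniteType ℂ (F i)] {m : Fin k → ℕ}
    (hm : ∀ i : Fin k, Algebra.trdeg ℂ (F i.castSucc) = m i)
    {x : ∀ i : Fin k, Fin (m i) → F i.castSucc} (hx : ∀ i, IsTranscendenceBasis ℂ (x i))
    {g : Fin k → ℕ} (hsep : ∀ i, SepX (x i) (fun _ => False) (g i))
    (hd : ∀ i : Fin k, finrank (Im F L i)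
      (IntermediateField.adjoin (Im F L i) (F i.castSucc : Set K)) < g i)
    (hN : Algebra.trdeg ℂ Ω < Cardinal.aleph0) (Λ : IntermediateField ℂ Ω)
    (hΛ : ∀ z : Ω, IsAlgebraic Λ z → z ∈ Λ) {r : ℕ} {s : Fin r → Ω}
    (hs : AlgebraicIndependent Λ s)
    (hL : ∀ z : L, algebraMap L Ω z ∈ IntermediateField.adjoin Λ (Set.range s))
    (τ : K →ₐ[L] Ω) (i : Fin k) : ∀ z ∈ F i.castSucc, τ z ∈ Λ := by
  induction i using WellFoundedLT.induction with
  | ind i ih =>
  intro z hz
  have hmul : ∀ y ∈ Im F L i, τ y ∈ IntermediateField.adjoin Λ (Set.range s) := by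
    obtain ⟨S, hS⟩ : ∃ S, S = IntermediateField.adjoin Λ (Set.range s) := ⟨_, rfl⟩
    rw [← hS] at hL ⊢
    let T : IntermediateField L K :=
      { carrier := {y | τ y ∈ S}
        mul_mem' := fun {a b} ha hb => by
          change τ (a * b) ∈ S
          rw [map_mul]
          exact S.mul_mem ha hb
        add_mem' := fun {a b} ha hb => by
          change τ (a + b) ∈ S
          rw [map_add]
          exact S.add_mem ha hb
        algebraMap_mem' := fun c => by
          change τ (algebraMap L K c) ∈ S
          rw [AlgHom.commutes]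
          exact hL c
        inv_mem' := fun a ha => by
          change τ a⁻¹ ∈ S
          rw [map_inv₀]
          exact S.inv_mem ha }
    have h1 : Im F L i ≤ T := by
      unfold Im
      rw [IntermediateField.adjoin_le_iff]
      rintro y ⟨l, hl, hy⟩
      change τ y ∈ S
      have hlk : l.val < k := lt_trans hl i.2
      have h2 := ih ⟨l.val, hlk⟩ hl y hy
      exact S.algebraMap_mem ⟨_, h2⟩
    exact h1
  obtain ⟨A0, hA0⟩ : ∃ A0, A0 = Im F L i := ⟨_, rfl⟩
  have hdi := hd i
  rw [← hA0] at hdi hmul
  obtain ⟨A, hA⟩ : ∃ A, A = IntermediateField.adjoin A0 (F i.castSucc : Set K) := ⟨_, rfl⟩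
  rw [← hA] at hdi
  obtain ⟨hf1, hf2⟩ := adj_le (A0 := A0) (A := A)
    (R := IntermediateField.adjoin Λ (Set.range s)) ((τ : K →+* Ω).comp (algebraMap A K))
    (fun a => ⟨⟨τ (a : K), hmul a a.2⟩, rfl⟩)
  let φ : F i.castSucc →ₐ[ℂ] Ω := (τ.restrictScalars ℂ).comp (F i.castSucc).val
  have hle : IntermediateField.adjoin (IntermediateField.adjoin Λ (Set.range s)) (Set.range φ) ≤
      IntermediateField.adjoin (IntermediateField.adjoin Λ (Set.range s))
        (Set.range ((τ : K →+* Ω).comp (algebraMap A K))) := by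
    apply IntermediateField.adjoin.mono
    rintro _ ⟨w, rfl⟩
    exact ⟨⟨(w : K), by rw [hA]; exact IntermediateField.subset_adjoin _ _ w.2⟩, rfl⟩
  have hfin : FiniteDimensional (IntermediateField.adjoin Λ (Set.range s))
      (IntermediateField.adjoin (IntermediateField.adjoin Λ (Set.range s)) (Set.range φ)) :=
    FiniteDimensional.of_injective (IntermediateField.inclusion hle).toLinearMap
      (IntermediateField.inclusion hle).injective
  have hfr := IntermediateField.finrank_le_of_le_right hle
  have h2 := cstr (hm i) (hx i) (hsep i) (Λ := Λ) hN hs φ hfin (by omega) ⟨z, hz⟩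
  exact hΛ _ h2


omit [IsAlgClosed Ω] [Algebra L Ω] [IsScalarTower ℂ L Ω] in
theorem lift_core [∀ i, Algebra.EssFiniteType ℂ (F i)] {m : Fin k → ℕ}
    (hm : ∀ i : Fin k, Algebra.trdeg ℂ (F i.castSucc) = m i)
    {x : ∀ i : Fin k, Fin (m i) → F i.castSucc} (hx : ∀ i, IsTranscendenceBasis ℂ (x i))
    {g : Fin k → ℕ} (hsep : ∀ i, SepX (x i) (fun _ => False) (g i))
    (hd : ∀ i : Fin k, finrank (Im F L i)
      (IntermediateField.adjoin (Im F L i) (F i.castSucc : Set K)) < g i) {M R Ω : Type} [Field M]
    [Field R] [Field Ω] [Algebra ℂ M] [Algebra ℂ R] [Algebra ℂ Ω] [Algebra M R]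
    [IsScalarTower ℂ M R] [Algebra R Ω] [IsScalarTower ℂ R Ω] [Algebra M Ω] [IsScalarTower M R Ω]
    [IsAlgClosed Ω] [Algebra.EssFiniteType ℂ M] {N r : ℕ} (hM : Algebra.trdeg ℂ M = N)
    (hΩ : Algebra.trdeg ℂ Ω < Cardinal.aleph0) (s0 : Fin r → R) (hs0 : AlgebraicIndependent M s0)
    (hgen : IntermediateField.adjoin M (Set.range s0) = ⊤) (ι : L →ₐ[ℂ] R) :
    ∃ (M' : Type) (_ : Field M') (_ : Algebra ℂ M'), Algebra.EssFiniteType ℂ M' ∧
      Algebra.trdeg ℂ M' = N ∧ ∃ ψ : Im F L k →ₐ[ℂ] FractionRing (MvPolynomial (Fin r) M'),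
        ∀ f : Im F L k, (f : K) ∈ (⨆ i : Fin k, F i.castSucc) → ∃ c : M',
          ψ f = algebraMap M' (FractionRing (MvPolynomial (Fin r) M')) c := by
  classical
  let iL : Algebra L Ω := ((algebraMap R Ω).comp (ι : L →+* R)).toAlgebra
  have hLR : ∀ z : L, algebraMap L Ω z = algebraMap R Ω (ι z) := fun _ => rfl
  have hT : IsScalarTower ℂ L Ω := IsScalarTower.of_algebraMap_eq fun c => by
    rw [hLR, ι.commutes, ← IsScalarTower.algebraMap_apply]
  have hTM : IsScalarTower ℂ M Ω := IsScalarTower.of_algebraMap_eq fun c => by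
    rw [IsScalarTower.algebraMap_apply M R Ω, ← IsScalarTower.algebraMap_apply ℂ M R,
      ← IsScalarTower.algebraMap_apply ℂ R Ω]
  let Λ : IntermediateField ℂ Ω := (algebraicClosure M Ω).restrictScalars ℂ
  have hmem : ∀ z : Ω, z ∈ Λ ↔ IsAlgebraic M z := fun z => mem_algebraicClosure_iff
  have hΛ : ∀ z : Ω, IsAlgebraic Λ z → z ∈ Λ := by
    intro z hz
    rw [hmem]
    have h1 : IsAlgebraic (algebraicClosure M Ω) z := hz
    exact h1.restrictScalars M
  obtain ⟨s, hsd⟩ : ∃ s : Fin r → Ω, s = fun i => algebraMap R Ω (s0 i) := ⟨_, rfl⟩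
  have hs1 : AlgebraicIndependent M s := by
    rw [hsd]
    exact hs0.map' (f := IsScalarTower.toAlgHom M R Ω) (algebraMap R Ω).injective
  have hs : AlgebraicIndependent Λ s := hs1.algebraicClosure
  have hadj : ∀ (A : IntermediateField M Ω), ∀ y : R, algebraMap R Ω y ∈
      IntermediateField.adjoin A (Set.range s) := by
    intro A
    obtain ⟨S, hSd⟩ : ∃ S, S = IntermediateField.adjoin A (Set.range s) := ⟨_, rfl⟩
    rw [← hSd]
    let T : IntermediateField M R :=
      { carrier := {y | algebraMap R Ω y ∈ S}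
        mul_mem' := fun {a b} ha hb => by
          change algebraMap R Ω (a * b) ∈ S
          rw [map_mul]
          exact S.mul_mem ha hb
        add_mem' := fun {a b} ha hb => by
          change algebraMap R Ω (a + b) ∈ S
          rw [map_add]
          exact S.add_mem ha hb
        algebraMap_mem' := fun c => by
          change algebraMap R Ω (algebraMap M R c) ∈ S
          rw [← IsScalarTower.algebraMap_apply]
          exact S.algebraMap_mem ⟨_, A.algebraMap_mem c⟩
        inv_mem' := fun a ha => by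
          change algebraMap R Ω a⁻¹ ∈ S
          rw [map_inv₀]
          exact S.inv_mem ha }
    have h1 : IntermediateField.adjoin M (Set.range s0) ≤ T := by
      rw [IntermediateField.adjoin_le_iff]
      rintro _ ⟨i, rfl⟩
      change algebraMap R Ω (s0 i) ∈ S
      rw [hSd]
      exact IntermediateField.subset_adjoin _ _ ⟨i, by rw [hsd]⟩
    rw [hgen] at h1
    exact fun y => h1 (IntermediateField.mem_top (x := y))
  obtain ⟨τ⟩ : Nonempty (K →ₐ[L] Ω) := ⟨IsAlgClosed.lift (R := L) (M := Ω) (S := K)⟩
  have hconst : ∀ i : Fin k, ∀ z ∈ F i.castSucc, τ z ∈ Λ :=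
    const_all hm hx hsep hd hΩ Λ hΛ hs (fun z => hadj (algebraicClosure M Ω) (ι z)) τ
  -- the base
  obtain ⟨E, hE⟩ : ∃ E, E = ⨆ i : Fin k, F i.castSucc := ⟨_, rfl⟩
  have hEΛ : ∀ z ∈ E, τ z ∈ Λ := by
    let T : IntermediateField ℂ K := Λ.comap (τ.restrictScalars ℂ)
    have h1 : E ≤ T := by
      rw [hE]
      exact iSup_le fun i z hz => hconst i z hz
    exact fun z hz => h1 hz
  have hessE : Algebra.EssFiniteType ℂ E := by
    rw [hE]
    exact IntermediateField.essFiniteType_iff.2 (IntermediateField.fg_iSup fun i =>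
      IntermediateField.essFiniteType_iff.1 inferInstance)
  rw [← hE]
  obtain ⟨T, hT⟩ := IntermediateField.essFiniteType_iff.1 hessE
  obtain ⟨M', hM'⟩ : ∃ M' : IntermediateField M Ω,
    M' = IntermediateField.adjoin M (τ '' (T : Set K)) := ⟨_, rfl⟩
  have hEM : ∀ z ∈ E, τ z ∈ M' := by
    let U : IntermediateField ℂ K := (M'.restrictScalars ℂ).comap (τ.restrictScalars ℂ)
    have h1 : E ≤ U := by
      rw [← hT, IntermediateField.adjoin_le_iff]
      intro z hz
      change τ z ∈ M'
      rw [hM']
      exact IntermediateField.subset_adjoin _ _ ⟨z, hz, rfl⟩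
    exact fun z hz => h1 hz
  have hM'alg : Algebra.IsAlgebraic M M' := by
    rw [hM']
    refine IntermediateField.isAlgebraic_adjoin fun y hy => ?_
    obtain ⟨z, hz, rfl⟩ := hy
    have h1 : z ∈ E := by
      rw [← hT]
      exact IntermediateField.subset_adjoin _ _ hz
    exact ((hmem _).1 (hEΛ z h1)).isIntegral
  have hessM' : Algebra.EssFiniteType M M' := by
    rw [IntermediateField.essFiniteType_iff, hM']
    exact ⟨T.image τ, by rw [Finset.coe_image]⟩
  have hTM' : IsScalarTower ℂ M M' := IsScalarTower.of_algebraMap_eq fun c =>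
    Subtype.ext (IsScalarTower.algebraMap_apply ℂ M Ω c)
  refine ⟨M', inferInstance, inferInstance, Algebra.EssFiniteType.comp ℂ M M', ?_, ?_⟩
  · rw [← hM]
    exact (Pool.Agent.N297.SX.trdeg_alg (N := M) (A := M')).symm
  have hs' : AlgebraicIndependent M' s := hs1.extendScalars M'
  let e := hs'.aevalEquivField
  obtain ⟨S, hS⟩ : ∃ S, S = IntermediateField.adjoin M' (Set.range s) := ⟨_, rfl⟩
  have hIm : ∀ z : Im F L k, τ (z : K) ∈ S := by
    let T : IntermediateField L K :=
      { carrier := {y | τ y ∈ S}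
        mul_mem' := fun {a b} ha hb => by
          change τ (a * b) ∈ S
          rw [map_mul]
          exact S.mul_mem ha hb
        add_mem' := fun {a b} ha hb => by
          change τ (a + b) ∈ S
          rw [map_add]
          exact S.add_mem ha hb
        algebraMap_mem' := fun c => by
          change τ (algebraMap L K c) ∈ S
          rw [AlgHom.commutes, hS]
          exact hadj M' (ι c)
        inv_mem' := fun a ha => by
          change τ a⁻¹ ∈ S
          rw [map_inv₀]
          exact S.inv_mem ha }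
    have h1 : Im F L k ≤ T := by
      unfold Im
      rw [IntermediateField.adjoin_le_iff]
      rintro y ⟨l, hl, hy⟩
      change τ y ∈ S
      have h2 : y ∈ E := by
        rw [hE]
        have h3 : F l ≤ ⨆ i : Fin k, F i.castSucc := by
          have h4 : F l = F (Fin.castSucc ⟨l.val, hl⟩) := rfl
          rw [h4]
          exact le_iSup (fun i : Fin k => F i.castSucc) _
        exact h3 hy
      exact S.algebraMap_mem ⟨_, hEM y h2⟩
    exact fun z => h1 z.2
  rw [hS] at hIm
  have hTS : ∀ c : ℂ, algebraMap M' (FractionRing (MvPolynomial (Fin r) M')) (algebraMap ℂ M' c) =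
      algebraMap ℂ (FractionRing (MvPolynomial (Fin r) M')) c := fun c =>
    (IsScalarTower.algebraMap_apply ℂ M' (FractionRing (MvPolynomial (Fin r) M')) c).symm
  have hψ : ∀ (z : Im F L k) (c : M') (h : τ (z : K) = (c : Ω)),
      e.symm ⟨τ (z : K), hIm z⟩ = algebraMap M' (FractionRing (MvPolynomial (Fin r) M')) c := by
    intro z c h
    rw [AlgEquiv.symm_apply_eq, AlgEquiv.commutes]
    exact Subtype.ext h
  refine ⟨
    { toFun := fun z => e.symm ⟨τ (z : K), hIm z⟩
      map_one' := by
        rw [hψ 1 1 (by simp), map_one]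
      map_mul' := fun a b => by
        rw [← map_mul]
        congr 1
        exact Subtype.ext (by simp)
      map_zero' := by
        rw [hψ 0 0 (by simp), map_zero]
      map_add' := fun a b => by
        rw [← map_add]
        congr 1
        exact Subtype.ext (by simp)
      commutes' := fun c => by
        rw [hψ _ (algebraMap ℂ M' c), hTS]
        have h1 : ((algebraMap ℂ (Im F L k) c : Im F L k) : K) = algebraMap ℂ K c := rfl
        rw [h1]
        exact (τ.restrictScalars ℂ).commutes c }, fun f hf => ⟨⟨_, hEM _ hf⟩, ?_⟩⟩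
  exact hψ f _ rfl

/-- **Coverings by unirational varieties lift.** -/
theorem lift_cov [∀ i, Algebra.EssFiniteType ℂ (F i)] {m : Fin k → ℕ}
    (hm : ∀ i : Fin k, Algebra.trdeg ℂ (F i.castSucc) = m i)
    {x : ∀ i : Fin k, Fin (m i) → F i.castSucc} (hx : ∀ i, IsTranscendenceBasis ℂ (x i))
    {g : Fin k → ℕ} (hsep : ∀ i, SepX (x i) (fun _ => False) (g i))
    (hd : ∀ i : Fin k, finrank (Im F L i)
      (IntermediateField.adjoin (Im F L i) (F i.castSucc : Set K)) < g i) {M : Type} [Field M]
    [Algebra ℂ M] [Algebra.EssFiniteType ℂ M] {N r : ℕ} (hM : Algebra.trdeg ℂ M = N)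
    (ι : L →ₐ[ℂ] FractionRing (MvPolynomial (Fin r) M)) :
    ∃ (M' : Type) (_ : Field M') (_ : Algebra ℂ M'), Algebra.EssFiniteType ℂ M' ∧
      Algebra.trdeg ℂ M' = N ∧ ∃ ψ : Im F L k →ₐ[ℂ] FractionRing (MvPolynomial (Fin r) M'),
        ∀ f : Im F L k, (f : K) ∈ (⨆ i : Fin k, F i.castSucc) → ∃ c : M',
          ψ f = algebraMap M' (FractionRing (MvPolynomial (Fin r) M')) c := by
  obtain ⟨R, iR1, iR2, iR3, iR4, xs, hxs, hgen, ⟨ι'⟩⟩ : ∃ (R : Type) (_ : Field R) (_ : Algebra M R)
      (_ : Algebra ℂ R) (_ : IsScalarTower ℂ M R) (xs : Fin r → R), AlgebraicIndependent M xs ∧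
      IntermediateField.adjoin M (Set.range xs) = ⊤ ∧ Nonempty (L →ₐ[ℂ] R) := by
    obtain ⟨xs, hxsd⟩ : ∃ xs : Fin r → FractionRing (MvPolynomial (Fin r) M), xs =
      fun i : Fin r => algebraMap (MvPolynomial (Fin r) M)
        (FractionRing (MvPolynomial (Fin r) M)) (MvPolynomial.X i) := ⟨_, rfl⟩
    refine ⟨FractionRing (MvPolynomial (Fin r) M), inferInstance, inferInstance, inferInstance,
      inferInstance, xs, ?_, ?_, ⟨ι⟩⟩
    · rw [hxsd]
      exact (MvPolynomial.algebraicIndependent_X (Fin r) M).map'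
        (f := IsScalarTower.toAlgHom M (MvPolynomial (Fin r) M)
          (FractionRing (MvPolynomial (Fin r) M))) (IsFractionRing.injective _ _)
    · rw [eq_top_iff]
      rintro y -
      obtain ⟨a, b, hb, rfl⟩ := IsFractionRing.div_surjective (A := MvPolynomial (Fin r) M) y
      have h1 : ∀ p : MvPolynomial (Fin r) M, algebraMap (MvPolynomial (Fin r) M)
          (FractionRing (MvPolynomial (Fin r) M)) p ∈
          IntermediateField.adjoin M (Set.range xs) := by
        intro p
        induction p using MvPolynomial.induction_on with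
        | C a =>
          exact (IntermediateField.adjoin M (Set.range xs)).algebraMap_mem a
        | add p q hp hq =>
          rw [map_add]
          exact (IntermediateField.adjoin M (Set.range xs)).add_mem hp hq
        | mul_X p i hp =>
          rw [map_mul]
          refine (IntermediateField.adjoin M (Set.range xs)).mul_mem hp ?_
          apply IntermediateField.subset_adjoin
          exact ⟨i, by rw [hxsd]⟩
      exact (IntermediateField.adjoin M (Set.range xs)).div_mem (h1 a) (h1 b)
  have hRΩ : Algebra.trdeg ℂ (AlgebraicClosure R) < Cardinal.aleph0 := by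
    have h1 : Algebra.trdeg ℂ R = Algebra.trdeg ℂ (AlgebraicClosure R) :=
      Pool.Agent.N297.SX.trdeg_alg (N := R) (A := AlgebraicClosure R)
    have h2 : IsTranscendenceBasis M xs := by
      rw [hxs.isTranscendenceBasis_iff_isAlgebraic, ← IntermediateField.isAlgebraic_adjoin_iff_top,
        hgen]
      exact ⟨fun y => isAlgebraic_algebraMap (⟨y, IntermediateField.mem_top⟩ :
        (⊤ : IntermediateField M R))⟩
    have h3 : Algebra.trdeg M R = (r : ℕ) := by
      have h4 := h2.lift_cardinalMk_eq_trdeg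
      simpa using h4.symm
    rw [← h1, ← trdeg_add_eq ℂ M (A := R), hM, h3]
    exact_mod_cast Cardinal.natCast_lt_aleph0 (n := N + r)
  exact lift_core hm hx hsep hd hM hRΩ xs hxs hgen ι'

end Run7.h562.UF
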